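import Pool.Agent.Helper80.LP.CutM
import Pool.Agent.Helper80.LP.Sup
import Pool.Agent.Helper92.GB.PAR
import Pool.Agent.Helper92.GB.SEQ

/-! SELX, SELI (MP_b6b996_nt, P1++): the choice of the cuts with the exact constant, for a general norm -/

set_option autoImplicit false

namespace Pool.Agent.Helper7.LPX

open Finset
open Pool.Agent.Helper92.GB (e ext F npi wt PAR SEQ)
open Pool.Agent.Helper92.CB
open Pool.Agent.Helper80.LP

/-- what the argument uses about a norm `ν g N` of the exponential sum -/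
structure NF (ν : (ℕ → ℤ) → ℕ → ℝ) : Prop where
  congr : ∀ {g g' : ℕ → ℤ} {N : ℕ}, F g N = F g' N → ν g N = ν g' N
  le_sup : ∀ (g : ℕ → ℤ) (N : ℕ) (S : ℝ), 0 ≤ S → (∀ x ∈ Set.Icc (0 : ℝ) 1, ‖F g N x‖ ≤ S) → ν g N ≤ S
  change : ∀ (a b : ℕ → ℤ), (∀ n, a n = 1 ∨ a n = -1) → (∀ n, b n = 1 ∨ b n = -1) →
    ∀ q : ℕ, q.Prime → 4 ≤ q → (∀ n, n ≠ q → a n = b n) → ∀ t : ℝ, 1 / 2 ≤ t → ∀ C : ℝ, 0 ≤ C →
    ∀ N : ℕ, 1 ≤ N → (∀ M : ℕ, 1 ≤ M → M ≤ N → ν (ext b) M ≤ C * (M : ℝ) ^ t) →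
    ν (ext a) N ≤ ν (ext b) N + 4 * C * ((N : ℝ) / q) ^ t

private lemma s_ext_congr {a b : ℕ → ℤ} {m : ℕ} (hm : 0 < m) (h : ∀ p, p ≤ m → a p = b p) :
    ext a m = ext b m := by
  unfold Pool.Agent.Helper92.GB.ext
  split_ifs
  · apply Finset.prod_congr rfl
    intro p hp
    exact h p (Nat.le_of_dvd hm (Nat.dvd_of_mem_primeFactors hp))
  · rfl

private lemma s_F_congr {a b : ℕ → ℤ} {N : ℕ} (h : ∀ n, n ≤ N → a n = b n) : F (ext a) N = F (ext b) N := by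
  funext x
  unfold F
  refine Finset.sum_congr rfl fun n hn => ?_
  congr 2
  exact s_ext_congr (Finset.mem_Icc.mp hn).1 (fun p hp => h p (hp.trans (Finset.mem_Icc.mp hn).2))

private lemma s_nrm_congr {ν : (ℕ → ℤ) → ℕ → ℝ} (hν : NF ν) {a b : ℕ → ℤ} {N : ℕ} (h : ∀ n, n ≤ N → a n = b n) :
    ν (ext a) N = ν (ext b) N := hν.congr (s_F_congr h)

private lemma s_ext_abs {a : ℕ → ℤ} (ha : ∀ n, a n = 1 ∨ a n = -1) (n : ℕ) : |ext a n| ≤ 1 := by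
  unfold Pool.Agent.Helper92.GB.ext
  split_ifs
  · rw [Finset.abs_prod]
    refine le_of_eq (Finset.prod_eq_one fun p _ => ?_)
    rcases ha p with h | h <;> rw [h] <;> simp
  · simp

private lemma s_F_le {a : ℕ → ℤ} (ha : ∀ n, a n = 1 ∨ a n = -1) (N : ℕ) (x : ℝ) : ‖F (ext a) N x‖ ≤ N := by
  unfold F
  refine (norm_sum_le _ _).trans ?_
  calc ∑ n ∈ Icc 1 N, ‖((ext a n : ℤ) : ℂ) * e (n * x)‖ ≤ ∑ _n ∈ Icc 1 N, (1 : ℝ) := by
        refine Finset.sum_le_sum fun n _ => ?_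
        have h1 : ‖e (n * x)‖ = 1 := by
          unfold e
          have : (2 * Real.pi * Complex.I * ((n * x : ℝ) : ℂ) : ℂ) = ((2 * Real.pi * (n * x) : ℝ) : ℂ) * Complex.I := by
            push_cast
            ring
          rw [this, Complex.norm_exp_ofReal_mul_I]
        rw [norm_mul, h1, mul_one, Complex.norm_intCast]
        have h2 := s_ext_abs ha n
        exact_mod_cast h2
    _ = N := by simp

private lemma s_nrm_le {ν : (ℕ → ℤ) → ℕ → ℝ} (hν : NF ν) {a : ℕ → ℤ} (ha : ∀ n, a n = 1 ∨ a n = -1) (N : ℕ) : ν (ext a) N ≤ N :=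
  hν.le_sup _ N N (Nat.cast_nonneg N) (fun x _ => s_F_le ha N x)

/-- the sign function of a choice -/
private noncomputable def gs (z : ℕ → ℕ) (L B : ℕ → Finset ℕ) (f : ℕ → ℤˣ) (s : ℕ → Cho) (n : ℕ) : ℤ :=
  ((cut z L B s f n : ℤˣ) : ℤ)

variable {z : ℕ → ℕ} {L B : ℕ → Finset ℕ}

private lemma gs_pm (f : ℕ → ℤˣ) (s : ℕ → Cho) (n : ℕ) : gs z L B f s n = 1 ∨ gs z L B f s n = -1 :=
  Sys.cut_pm s f n

private lemma cut_congr (S : Sys z L B) (f : ℕ → ℤˣ) {s s' : ℕ → Cho} {n : ℕ}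
    (h : ∀ i, 3 * z i < n → n ≤ 4 * z i → s i = s' i) : cut z L B s f n = cut z L B s' f n := by
  by_cases h1 : n ∈ L (idx z n)
  · have h2 := S.memL h1
    rw [S.cutL s f h1, S.cutL s' f h1, h _ h2.2.1 h2.2.2]
  · by_cases h3 : n ∈ B (idx z n)
    · have h2 := S.memB h3
      rw [S.cutB s f h3, S.cutB s' f h3, h _ h2.2.1 h2.2.2]
    · unfold cut
      rw [if_neg h1, if_neg h3, if_neg h1, if_neg h3]

/-- the norms below a window -/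
private lemma nu_congr {ν : (ℕ → ℤ) → ℕ → ℝ} (hν : NF ν) (S : Sys z L B) (f : ℕ → ℤˣ) {s s' : ℕ → Cho} {j N : ℕ} (h : ∀ i, i ≤ j → s i = s' i)
    (hN : 2 * N ≤ 3 * z (j + 1)) : ν (ext (gs z L B f s)) N = ν (ext (gs z L B f s')) N := by
  refine s_nrm_congr hν fun n hn => ?_
  unfold gs
  rw [cut_congr S f]
  intro i hi _
  refine h i ?_
  by_contra hc
  push Not at hc
  have h1 : z (j + 1) ≤ z i := S.mono.monotone hc
  omega

private lemma cut_step_ne (f : ℕ → ℤˣ) (s : ℕ → Cho) (j : ℕ) (ab : ℤˣ × ℤˣ) (y n : ℕ) (hn : n ≠ y + 1) :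
    cut z L B (Function.update s j (ab, y)) f n = cut z L B (Function.update s j (ab, y + 1)) f n := by
  unfold cut
  by_cases hi : idx z n = j
  · rw [hi, Function.update_self, Function.update_self]
    have h1 : (n ≤ y) ↔ (n ≤ y + 1) := by omega
    by_cases h2 : n ∈ L j
    · rw [if_pos h2, if_pos h2]
    · rw [if_neg h2, if_neg h2]
      by_cases h3 : n ≤ y
      · simp only [if_pos h3, if_pos (h1.1 h3)]
      · simp only [if_neg h3, if_neg (fun h => h3 (h1.2 h))]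
  · rw [Function.update_of_ne hi, Function.update_of_ne hi]

private lemma cut_step_eq (f : ℕ → ℤˣ) (s : ℕ → Cho) (j : ℕ) (ab : ℤˣ × ℤˣ) (y n : ℕ) (hy : y + 1 ∉ B j) :
    cut z L B (Function.update s j (ab, y)) f n = cut z L B (Function.update s j (ab, y + 1)) f n := by
  by_cases hn : n = y + 1
  · subst hn
    unfold cut
    by_cases hi : idx z (y + 1) = j
    · rw [hi, Function.update_self, Function.update_self, if_neg hy, if_neg hy]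
    · rw [Function.update_of_ne hi, Function.update_of_ne hi]
  · exact cut_step_ne f s j ab y n hn

/-- the bound in the window `j` -/
private def QW (ν : (ℕ → ℤ) → ℕ → ℝ) (z : ℕ → ℕ) (L B : ℕ → Finset ℕ) (f : ℕ → ℤˣ) (t : ℝ) (j : ℕ) (s : ℕ → Cho) : Prop :=
  ∀ N : ℕ, 3 * z j < 2 * N → 2 * N ≤ 3 * z (j + 1) → ν (ext (gs z L B f s)) N ≤ (N : ℝ) ^ t

private lemma QW_congr {ν : (ℕ → ℤ) → ℕ → ℝ} (hν : NF ν) (S : Sys z L B) (f : ℕ → ℤˣ) (t : ℝ) {j : ℕ} {s s' : ℕ → Cho} (h : ∀ i, i ≤ j → s i = s' i)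
    (hQ : QW ν z L B f t j s) : QW ν z L B f t j s' := by
  intro N h1 h2
  rw [← nu_congr hν S f h h2]
  exact hQ N h1 h2

private lemma window (S : Sys z L B) {j₀ N : ℕ} (h : 3 * z j₀ < 2 * N) :
    ∃ j, j₀ ≤ j ∧ 3 * z j < 2 * N ∧ 2 * N ≤ 3 * z (j + 1) := by
  have hex : ∃ k, 2 * N ≤ 3 * z (j₀ + k) := by
    refine ⟨2 * N, ?_⟩
    have := S.mono.id_le (j₀ + 2 * N)
    simp only [id] at this
    omega
  classical
  obtain ⟨k, hk⟩ : ∃ k, k = Nat.find hex := ⟨_, rfl⟩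
  have h1 : 2 * N ≤ 3 * z (j₀ + k) := hk ▸ Nat.find_spec hex
  have h0 : k ≠ 0 := by
    intro h0
    rw [h0, add_zero] at h1
    omega
  obtain ⟨k', rfl⟩ : ∃ k', k = k' + 1 := ⟨k - 1, by omega⟩
  have h2 : ¬ 2 * N ≤ 3 * z (j₀ + k') := Nat.find_min hex (by omega)
  exact ⟨j₀ + k', by omega, by omega, h1⟩

private lemma all_bd {ν : (ℕ → ℤ) → ℕ → ℝ} (hν : NF ν) (S : Sys z L B) (f : ℕ → ℤˣ) {t : ℝ} (ht : 0 ≤ t) {j₀ j : ℕ} {s : ℕ → Cho}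
    (hQ : ∀ i, j₀ ≤ i → i ≤ j → QW ν z L B f t i s) {M : ℕ} (hM : 1 ≤ M) (hMj : 2 * M ≤ 3 * z (j + 1)) :
    ν (ext (gs z L B f s)) M ≤ 3 * z j₀ * (M : ℝ) ^ t := by
  have hM1 : (1 : ℝ) ≤ M := by exact_mod_cast hM
  have hMt : (1 : ℝ) ≤ (M : ℝ) ^ t := Real.one_le_rpow hM1 ht
  have hz : (16 : ℝ) ≤ z j₀ := by exact_mod_cast S.big j₀
  by_cases h : 3 * z j₀ < 2 * M
  · obtain ⟨i, hi1, hi2, hi3⟩ := window S h
    have hij : i ≤ j := by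
      by_contra hc
      push Not at hc
      have h1 : z (j + 1) ≤ z i := S.mono.monotone hc
      omega
    refine (hQ i hi1 hij M hi2 hi3).trans ?_
    nlinarith
  · push Not at h
    have h1 := s_nrm_le hν (gs_pm (z := z) (L := L) (B := B) f s) M
    have h2 : (2 : ℝ) * M ≤ 3 * z j₀ := by exact_mod_cast h
    have h3 : (M : ℝ) ≤ 3 * z j₀ * 1 := by nlinarith
    refine h1.trans (h3.trans ?_)
    exact mul_le_mul_of_nonneg_left hMt (by positivity)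

/-- the signs for the cut `0` -/
private lemma signs (S : Sys z L B) (f : ℕ → ℤˣ) (j : ℕ) (σ : ℕ → Cho) : ∃ ab : ℤˣ × ℤˣ,
    ‖∑ p ∈ B j, ∑ l ∈ L j, ((f p : ℤ) : ℂ) * ((f l : ℤ) : ℂ) * e ((p * l : ℕ) * (1 / (4 * z j + 1)))‖ ≤
      ‖F (ext (gs z L B f (Function.update σ j (ab, 0)))) (16 * z j ^ 2) (1 / (4 * z j + 1))‖ := by
  obtain ⟨s, s', hss⟩ := PAR (z j) (by have := S.big j; omega) (L j) (B j) (fun p hp => S.memL hp) (fun p hp => S.memB hp)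
    (S.dis j) (gs z L B f (Function.update σ j ((1, 1), 0))) (1 / (4 * z j + 1))
  refine ⟨(s, s'), ?_⟩
  have e1 : (fun n => if n ∈ L j then (s : ℤ) * gs z L B f (Function.update σ j ((1, 1), 0)) n
      else if n ∈ B j then (s' : ℤ) * gs z L B f (Function.update σ j ((1, 1), 0)) n
      else gs z L B f (Function.update σ j ((1, 1), 0)) n) = gs z L B f (Function.update σ j ((s, s'), 0)) := by
    funext n
    unfold gs
    by_cases h1 : n ∈ L j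
    · simp only [if_pos h1]
      rw [S.cutL _ _ h1, S.cutL _ _ h1]
      simp
    · by_cases h2 : n ∈ B j
      · simp only [if_neg h1, if_pos h2]
        rw [S.cutB _ _ h2, S.cutB _ _ h2]
        simp only [Function.update_self, one_mul, Units.val_mul]
      · simp only [if_neg h1, if_neg h2]
        congr 1
        unfold cut
        by_cases hi : idx z n = j
        · rw [hi]
          simp only [if_neg h1, if_neg h2]
        · rw [Function.update_of_ne hi, Function.update_of_ne hi]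
  have e2 : ∑ p ∈ B j, ∑ l ∈ L j, (gs z L B f (Function.update σ j ((1, 1), 0)) p : ℂ) *
      (gs z L B f (Function.update σ j ((1, 1), 0)) l : ℂ) * e ((p * l : ℕ) * (1 / (4 * z j + 1))) =
      ∑ p ∈ B j, ∑ l ∈ L j, (((f p : ℤˣ) : ℤ) : ℂ) * (((f l : ℤˣ) : ℤ) : ℂ) *
        e ((p * l : ℕ) * (1 / (4 * z j + 1))) := by
    refine Finset.sum_congr rfl fun p hp => Finset.sum_congr rfl fun l hl => ?_
    unfold gs
    rw [S.cutB _ _ hp, S.cutL _ _ hl]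
    have hp0 : ¬ p ≤ 0 := by
      have := (S.memB hp).1.pos
      omega
    simp only [Function.update_self, if_neg hp0, one_mul]
  rw [e1, e2] at hss
  exact hss

/-- for the cut `0` the bound fails -/
private lemma cut0_fail (S : Sys z L B) (f : ℕ → ℤˣ)
    (hlow : ∀ j, (z j : ℝ) ^ (3 / 2 - 4 * (1 / ((j : ℝ) + 10))) ≤
      ‖∑ p ∈ B j, ∑ l ∈ L j, ((f p : ℤ) : ℂ) * ((f l : ℤ) : ℂ) * e ((p * l : ℕ) * (1 / (4 * z j + 1)))‖)
    {ν : (ℕ → ℤ) → ℕ → ℝ} (a c : ℝ) (hc : 0 < c) (hge : ∀ (g : ℕ → ℤ) (N : ℕ), 1 ≤ N → ∀ S : ℝ, 0 ≤ S →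
    (∃ x ∈ Set.Icc (0 : ℝ) 1, S ≤ ‖F g N x‖) → c * (N : ℝ) ^ (-a) * S ≤ ν g N) (t : ℝ) (ht2 : t < 3 / 4 - a) :
    ∃ j₁ : ℕ, ∀ j, j₁ ≤ j → ∀ σ : ℕ → Cho, ∃ ab : ℤˣ × ℤˣ, ¬ QW ν z L B f t j (Function.update σ j (ab, 0)) := by
  obtain ⟨δ, hδ⟩ : ∃ δ : ℝ, δ = 3 / 2 - 2 * a - 2 * t := ⟨_, rfl⟩
  have hδ0 : 0 < δ := by
    rw [hδ]
    linarith
  have hlim : Filter.Tendsto (fun j : ℕ => ((z j : ℝ)) ^ (δ / 2)) Filter.atTop Filter.atTop := by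
    apply (tendsto_rpow_atTop (by positivity : 0 < δ / 2)).comp
    exact tendsto_natCast_atTop_atTop.comp S.mono.tendsto_atTop
  obtain ⟨j₁, hj₁⟩ := Filter.eventually_atTop.1 (hlim.eventually (Filter.eventually_gt_atTop (16 / c)))
  obtain ⟨j₂, hj₂⟩ := exists_nat_gt (8 / δ)
  refine ⟨max j₁ j₂, fun j hj σ => ?_⟩
  obtain ⟨ab, hab⟩ := signs S f j σ
  refine ⟨ab, fun hQ => ?_⟩
  have hz16 : (16 : ℝ) ≤ z j := by exact_mod_cast S.big j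
  have hz0 : (0 : ℝ) < z j := by linarith
  have hz1 : (1 : ℝ) ≤ z j := by linarith
  have hw1 : 3 * z j < 2 * (16 * z j ^ 2) := by
    have := S.big j
    nlinarith
  have hw2 : 2 * (16 * z j ^ 2) ≤ 3 * z (j + 1) := by
    have := S.sep j
    omega
  have h1 := hQ _ hw1 hw2
  have hN1 : 1 ≤ 16 * z j ^ 2 := by
    have := S.big j
    nlinarith
  have hlow' := (hlow j).trans hab
  have h2 := hge (ext (gs z L B f (Function.update σ j (ab, 0)))) _ hN1 _ (Real.rpow_nonneg hz0.le _)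
    ⟨1 / (4 * z j + 1), ⟨by positivity, by rw [div_le_one (by positivity)]; linarith⟩, hlow'⟩
  have h3 := h2.trans h1
  have hcast : ((16 * z j ^ 2 : ℕ) : ℝ) = 16 * (z j : ℝ) ^ (2 : ℕ) := by push_cast; ring
  rw [hcast, Real.mul_rpow (by norm_num) (by positivity), Real.mul_rpow (by norm_num) (by positivity)] at h3
  have e1 : ∀ a : ℝ, ((z j : ℝ) ^ (2 : ℕ)) ^ a = (z j : ℝ) ^ (2 * a) := by
    intro a
    rw [← Real.rpow_natCast, ← Real.rpow_mul hz0.le]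
    norm_num
  rw [e1, e1] at h3
  have hδj : 4 * (1 / ((j : ℝ) + 10)) ≤ δ / 2 := by
    have hjr : (8 / δ : ℝ) ≤ j := by
      have : (j₂ : ℝ) ≤ j := by exact_mod_cast (le_max_right _ _).trans hj
      linarith
    rw [div_le_iff₀ hδ0] at hjr
    rw [mul_one_div, div_le_iff₀ (by positivity)]
    nlinarith
  have h16 : (16 : ℝ) ^ t * (16 : ℝ) ^ a ≤ 16 := by
    rw [← Real.rpow_add (by norm_num)]
    calc (16 : ℝ) ^ (t + a) ≤ (16 : ℝ) ^ (1 : ℝ) := Real.rpow_le_rpow_of_exponent_le (by norm_num) (by linarith)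
      _ = 16 := Real.rpow_one _
  have h4 := hj₁ j ((le_max_left _ _).trans hj)
  -- multiply
  have h5 : c * (z j : ℝ) ^ (3 / 2 - 4 * (1 / ((j : ℝ) + 10)) - 2 * a) ≤ 16 * (z j : ℝ) ^ (2 * t) := by
    have hb : (16 : ℝ) ^ (-a) * (16 : ℝ) ^ a = 1 := by
      rw [← Real.rpow_add (by norm_num)]
      norm_num
    have hd : (z j : ℝ) ^ (2 * -a) * (z j : ℝ) ^ (3 / 2 - 4 * (1 / ((j : ℝ) + 10))) =
        (z j : ℝ) ^ (3 / 2 - 4 * (1 / ((j : ℝ) + 10)) - 2 * a) := by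
      rw [← Real.rpow_add hz0]
      congr 1
      ring
    have h6 := mul_le_mul_of_nonneg_right h3 (Real.rpow_nonneg (by norm_num : (0 : ℝ) ≤ 16) a)
    calc c * (z j : ℝ) ^ (3 / 2 - 4 * (1 / ((j : ℝ) + 10)) - 2 * a)
        = c * ((16 : ℝ) ^ (-a) * (z j : ℝ) ^ (2 * -a)) * (z j : ℝ) ^ (3 / 2 - 4 * (1 / ((j : ℝ) + 10))) *
          (16 : ℝ) ^ a := by
            rw [← hd]
            linear_combination (-c * ((z j : ℝ) ^ (2 * -a) * (z j : ℝ) ^ (3 / 2 - 4 * (1 / ((j : ℝ) + 10))))) * hb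
      _ ≤ (16 : ℝ) ^ t * (z j : ℝ) ^ (2 * t) * (16 : ℝ) ^ a := h6
      _ = (16 : ℝ) ^ t * (16 : ℝ) ^ a * (z j : ℝ) ^ (2 * t) := by ring
      _ ≤ 16 * (z j : ℝ) ^ (2 * t) := mul_le_mul_of_nonneg_right h16 (Real.rpow_nonneg hz0.le _)
  have h7 : (z j : ℝ) ^ (δ / 2) * (z j : ℝ) ^ (2 * t) ≤ (z j : ℝ) ^ (3 / 2 - 4 * (1 / ((j : ℝ) + 10)) - 2 * a) := by
    rw [← Real.rpow_add hz0]
    apply Real.rpow_le_rpow_of_exponent_le hz1
    rw [hδ]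
    rw [hδ] at hδj
    linarith
  have h8 : c * ((z j : ℝ) ^ (δ / 2) * (z j : ℝ) ^ (2 * t)) ≤ 16 * (z j : ℝ) ^ (2 * t) :=
    (mul_le_mul_of_nonneg_left h7 hc.le).trans h5
  have h9 : c * (z j : ℝ) ^ (δ / 2) ≤ 16 := by
    have h10 : 0 < (z j : ℝ) ^ (2 * t) := Real.rpow_pos_of_pos hz0 _
    refine le_of_mul_le_mul_right ?_ h10
    rw [mul_assoc]
    exact h8
  rw [div_lt_iff₀ hc] at h4
  linarith

/-- for the cut `4 z_j` the bound holds -/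
private lemma cut4_ok (S : Sys z L B) (f : ℕ → ℤˣ)
    (hend : ∀ ε : ℝ, 0 < ε → ∃ C : ℝ, ∀ N : ℕ, 1 ≤ N → ∀ s : ℕ → Cho, Endp z N s → ∀ x : ℝ,
      ‖F (ext fun n => ((cut z L B s f n : ℤˣ) : ℤ)) N x‖ ≤ C * (N : ℝ) ^ (1 / 2 + ε))
    {ν : (ℕ → ℤ) → ℕ → ℝ} (hν : NF ν) {t : ℝ} (ht1 : 1 / 2 < t) :
    ∃ j₁ : ℕ, ∀ j, j₁ ≤ j → ∀ σ : ℕ → Cho, ∀ ab : ℤˣ × ℤˣ, QW ν z L B f t j (Function.update σ j (ab, 4 * z j)) := by
  obtain ⟨C, hC⟩ := hend ((t - 1 / 2) / 2) (by linarith)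
  have hlim : Filter.Tendsto (fun N : ℕ => ((N : ℝ)) ^ ((t - 1 / 2) / 2)) Filter.atTop Filter.atTop :=
    (tendsto_rpow_atTop (by linarith : 0 < (t - 1 / 2) / 2)).comp tendsto_natCast_atTop_atTop
  obtain ⟨N₁, hN₁⟩ := Filter.eventually_atTop.1 (hlim.eventually (Filter.eventually_ge_atTop (max C 0)))
  refine ⟨N₁, fun j hj σ ab N h1 h2 => ?_⟩
  have hjz : j ≤ z j := S.mono.id_le j
  have hN0 : 1 ≤ N := by
    have := S.big j
    omega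
  have hNr : (0 : ℝ) < N := by exact_mod_cast hN0
  have hend' : Endp z N (Function.update σ j (ab, 4 * z j)) := by
    intro i hi1 hi2
    have hij : i = j := by
      rcases lt_trichotomy i j with h | h | h
      · exact absurd h1 (hi2 j h)
      · exact h
      · exfalso
        have h3 : z (j + 1) ≤ z i := S.mono.monotone h
        omega
    subst hij
    rw [Function.update_self]
  have hNt : max C 0 ≤ (N : ℝ) ^ ((t - 1 / 2) / 2) := hN₁ N (by omega)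
  have h3 : ∀ x : ℝ, ‖F (ext (gs z L B f (Function.update σ j (ab, 4 * z j)))) N x‖ ≤ (N : ℝ) ^ t := by
    intro x
    refine (hC N hN0 _ hend' x).trans ?_
    have h4 : (N : ℝ) ^ t = (N : ℝ) ^ ((t - 1 / 2) / 2) * (N : ℝ) ^ (1 / 2 + (t - 1 / 2) / 2) := by
      rw [← Real.rpow_add hNr]
      congr 1
      ring
    rw [h4]
    exact mul_le_mul_of_nonneg_right ((le_max_left _ _).trans hNt) (Real.rpow_nonneg hNr.le _)
  exact hν.le_sup _ N _ (Real.rpow_nonneg hNr.le _) (fun x _ => h3 x)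

/-- the least cut -/
private lemma step {ν : (ℕ → ℤ) → ℕ → ℝ} (hν : NF ν) (S : Sys z L B) (f : ℕ → ℤˣ) {t : ℝ} (ht1 : 1 / 2 < t) (j₀ : ℕ)
    (h0 : ∀ j, j₀ ≤ j → ∀ σ : ℕ → Cho, ∃ ab : ℤˣ × ℤˣ, ¬ QW ν z L B f t j (Function.update σ j (ab, 0)))
    (h4 : ∀ j, j₀ ≤ j → ∀ σ : ℕ → Cho, ∀ ab : ℤˣ × ℤˣ, QW ν z L B f t j (Function.update σ j (ab, 4 * z j)))
    (j : ℕ) (hj : j₀ ≤ j) (σ : ℕ → Cho) (hprev : ∀ i, i < j → j₀ ≤ i → QW ν z L B f t i σ) :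
    ∃ a : Cho, QW ν z L B f t j (Function.update σ j a) ∧ ∃ N : ℕ, 3 * z j < 2 * N ∧ 2 * N ≤ 3 * z (j + 1) ∧
      (1 - 4 * (3 * (z j₀ : ℝ)) / (3 * (z j : ℝ)) ^ t) * (N : ℝ) ^ t ≤ ν (ext (gs z L B f (Function.update σ j a))) N := by
  classical
  obtain ⟨ab, hab⟩ := h0 j hj σ
  have hex : ∃ y, QW ν z L B f t j (Function.update σ j (ab, y)) := ⟨_, h4 j hj σ ab⟩
  obtain ⟨y, hy⟩ : ∃ y, y = Nat.find hex := ⟨_, rfl⟩
  have hQ : QW ν z L B f t j (Function.update σ j (ab, y)) := hy ▸ Nat.find_spec hex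
  have hy0 : y ≠ 0 := by
    intro h
    rw [h] at hQ
    exact hab hQ
  obtain ⟨y', rfl⟩ : ∃ y', y = y' + 1 := ⟨y - 1, by omega⟩
  have hnQ : ¬ QW ν z L B f t j (Function.update σ j (ab, y')) := Nat.find_min hex (by omega)
  refine ⟨(ab, y' + 1), hQ, ?_⟩
  have hyB : y' + 1 ∈ B j := by
    by_contra hc
    refine hnQ ?_
    have he : gs z L B f (Function.update σ j (ab, y')) = gs z L B f (Function.update σ j (ab, y' + 1)) := by
      funext n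
      unfold gs
      rw [cut_step_eq f σ j ab y' n hc]
    intro N h2 h3
    rw [he]
    exact hQ N h2 h3
  have hpr := S.memB hyB
  unfold QW at hnQ
  push Not at hnQ
  obtain ⟨N, hN1, hN2, hN3⟩ := hnQ
  refine ⟨N, hN1, hN2, ?_⟩
  have hz16 : (16 : ℝ) ≤ z j := by exact_mod_cast S.big j
  have hN0 : 1 ≤ N := by
    have := S.big j
    omega
  have hNr : (0 : ℝ) < N := by exact_mod_cast hN0
  have hall : ∀ i, j₀ ≤ i → i ≤ j → QW ν z L B f t i (Function.update σ j (ab, y' + 1)) := by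
    intro i hi1 hi2
    rcases lt_or_eq_of_le hi2 with h | h
    · refine QW_congr hν S f t (s := σ) ?_ (hprev i h hi1)
      intro k hk
      rw [Function.update_of_ne (by omega)]
    · rw [h]
      exact hQ
  have hbd : ∀ M : ℕ, 1 ≤ M → M ≤ N → ν (ext (gs z L B f (Function.update σ j (ab, y' + 1)))) M ≤ 3 * z j₀ * (M : ℝ) ^ t :=
    fun M hM1 hM2 => all_bd hν S f (by linarith) hall hM1 (by omega)
  have hch := hν.change (gs z L B f (Function.update σ j (ab, y')))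
    (gs z L B f (Function.update σ j (ab, y' + 1))) (gs_pm f _) (gs_pm f _) (y' + 1) hpr.1
    (by have := S.big j; omega)
    (by
      intro n hn
      unfold gs
      rw [cut_step_ne f σ j ab y' n hn])
    t ht1.le (3 * z j₀) (by positivity) N hN0 hbd
  have hq : (3 * (z j : ℝ)) ^ t ≤ ((y' + 1 : ℕ) : ℝ) ^ t := by
    apply Real.rpow_le_rpow (by positivity) _ (by linarith)
    exact_mod_cast hpr.2.1.le
  have hz3pos : (0 : ℝ) < (3 * (z j : ℝ)) ^ t := Real.rpow_pos_of_pos (by positivity) _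
  have h9 : 4 * (3 * (z j₀ : ℝ)) * ((N : ℝ) / ((y' + 1 : ℕ) : ℝ)) ^ t ≤ 4 * (3 * (z j₀ : ℝ)) / (3 * (z j : ℝ)) ^ t * (N : ℝ) ^ t := by
    rw [Real.div_rpow hNr.le (by positivity), ← mul_div_assoc, div_mul_eq_mul_div]
    exact div_le_div_of_nonneg_left (by positivity) hz3pos hq
  have h10 : (1 - 4 * (3 * (z j₀ : ℝ)) / (3 * (z j : ℝ)) ^ t) * (N : ℝ) ^ t =
      (N : ℝ) ^ t - 4 * (3 * (z j₀ : ℝ)) / (3 * (z j : ℝ)) ^ t * (N : ℝ) ^ t := by ring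
  rw [h10]
  linarith

/-- the choice of the cuts for a general norm -/
theorem SELG {ν : (ℕ → ℤ) → ℕ → ℝ} (hν : NF ν) {z : ℕ → ℕ} {L B : ℕ → Finset ℕ} (S : Sys z L B) (f : ℕ → ℤˣ)
    (hend : ∀ ε : ℝ, 0 < ε → ∃ C : ℝ, ∀ N : ℕ, 1 ≤ N → ∀ s : ℕ → Cho, Endp z N s → ∀ x : ℝ,
      ‖F (ext fun n => ((cut z L B s f n : ℤˣ) : ℤ)) N x‖ ≤ C * (N : ℝ) ^ (1 / 2 + ε))
    (hlow : ∀ j, (z j : ℝ) ^ (3 / 2 - 4 * (1 / ((j : ℝ) + 10))) ≤
      ‖∑ p ∈ B j, ∑ l ∈ L j, ((f p : ℤ) : ℂ) * ((f l : ℤ) : ℂ) * e ((p * l : ℕ) * (1 / (4 * z j + 1)))‖)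
    (a c : ℝ) (hc : 0 < c) (hge : ∀ (g : ℕ → ℤ) (N : ℕ), 1 ≤ N → ∀ S : ℝ, 0 ≤ S →
    (∃ x ∈ Set.Icc (0 : ℝ) 1, S ≤ ‖F g N x‖) → c * (N : ℝ) ^ (-a) * S ≤ ν g N)
    (t : ℝ) (ht1 : 1 / 2 < t) (ht2 : t < 3 / 4 - a) :
    ∃ s : ℕ → Cho,
      (∃ N₀ : ℕ, ∀ N : ℕ, N₀ ≤ N → ν (ext fun n => ((cut z L B s f n : ℤˣ) : ℤ)) N ≤ (N : ℝ) ^ t) ∧
      ∀ η : ℝ, 0 < η → ∀ N₀ : ℕ, ∃ N : ℕ, N₀ ≤ N ∧
        (1 - η) * (N : ℝ) ^ t ≤ ν (ext fun n => ((cut z L B s f n : ℤˣ) : ℤ)) N := by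
  obtain ⟨ja, ha⟩ := cut0_fail S f hlow (ν := ν) a c hc hge t ht2
  obtain ⟨jb, hb⟩ := cut4_ok S f hend hν ht1
  obtain ⟨j₀, hj₀⟩ : ∃ j₀, j₀ = max ja jb := ⟨_, rfl⟩
  have h0 : ∀ j, j₀ ≤ j → ∀ σ : ℕ → Cho, ∃ ab : ℤˣ × ℤˣ, ¬ QW ν z L B f t j (Function.update σ j (ab, 0)) :=
    fun j hj => ha j (by omega)
  have h4 : ∀ j, j₀ ≤ j → ∀ σ : ℕ → Cho, ∀ ab : ℤˣ × ℤˣ, QW ν z L B f t j (Function.update σ j (ab, 4 * z j)) :=
    fun j hj => hb j (by omega)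
  obtain ⟨σ, hσ⟩ := SEQ (fun j s => (∀ i, i < j → j₀ ≤ i → QW ν z L B f t i s) → j₀ ≤ j → QW ν z L B f t j s ∧
      ∃ N : ℕ, 3 * z j < 2 * N ∧ 2 * N ≤ 3 * z (j + 1) ∧
      (1 - 4 * (3 * (z j₀ : ℝ)) / (3 * (z j : ℝ)) ^ t) * (N : ℝ) ^ t ≤ ν (ext (gs z L B f s)) N)
    (by
      intro j s s' hss h hprev hj
      obtain ⟨h2, N, hN1, hN2, hN3⟩ := h (fun i hi hi0 => QW_congr hν S f t (fun k hk => (hss k (by omega)).symm) (hprev i hi hi0)) hj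
      refine ⟨QW_congr hν S f t hss h2, N, hN1, hN2, ?_⟩
      rw [← nu_congr hν S f hss hN2]
      exact hN3)
    (by
      intro j s
      by_cases hj : j₀ ≤ j
      · by_cases hprev : ∀ i, i < j → j₀ ≤ i → QW ν z L B f t i s
        · obtain ⟨a', ha1, ha2⟩ := step hν S f ht1 j₀ h0 h4 j hj s hprev
          exact ⟨a', fun _ _ => ⟨ha1, ha2⟩⟩
        · refine ⟨default, fun h => absurd ?_ hprev⟩
          intro i hi hi0
          refine QW_congr hν S f t (s := Function.update s j default) ?_ (h i hi hi0)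
          intro k hk
          rw [Function.update_of_ne (by omega)]
      · exact ⟨default, fun _ h => absurd h hj⟩)
  have hQ : ∀ j, j₀ ≤ j → QW ν z L B f t j σ := by
    intro j
    induction j using Nat.strong_induction_on with
    | _ j ih =>
      intro hj
      exact (hσ j (fun i hi hi0 => ih i hi hi0) hj).1
  have hlim : Filter.Tendsto (fun j : ℕ => (3 * (z j : ℝ)) ^ t) Filter.atTop Filter.atTop := by
    apply (tendsto_rpow_atTop (by linarith : 0 < t)).comp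
    exact (tendsto_natCast_atTop_atTop.comp S.mono.tendsto_atTop).const_mul_atTop (by norm_num)
  refine ⟨σ, ⟨3 * z j₀, fun N hN => ?_⟩, fun η hη N₀ => ?_⟩
  · have hz := S.big j₀
    obtain ⟨j, hj1, hj2, hj3⟩ := window S (j₀ := j₀) (N := N) (by omega)
    exact hQ j hj1 N hj2 hj3
  · obtain ⟨j₁, h1⟩ := Filter.eventually_atTop.1 (hlim.eventually (Filter.eventually_ge_atTop (4 * (3 * (z j₀ : ℝ)) / η)))
    obtain ⟨j, hj⟩ : ∃ j, j = max (max j₀ j₁) N₀ := ⟨_, rfl⟩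
    obtain ⟨N, hN1, hN2, hN3⟩ := (hσ j (fun i hi hi0 => hQ i hi0) (by omega)).2
    refine ⟨N, ?_, ?_⟩
    · have := S.mono.id_le j
      simp only [id] at this
      omega
    · have hz16 : (16 : ℝ) ≤ z j := by exact_mod_cast S.big j
      have hz3pos : (0 : ℝ) < (3 * (z j : ℝ)) ^ t := Real.rpow_pos_of_pos (by positivity) _
      have h2 := h1 j (by omega)
      have h3 : 4 * (3 * (z j₀ : ℝ)) / (3 * (z j : ℝ)) ^ t ≤ η := by
        rw [div_le_iff₀ hz3pos]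
        rw [div_le_iff₀ hη] at h2
        linarith
      refine le_trans ?_ hN3
      exact mul_le_mul_of_nonneg_right (by linarith) (Real.rpow_nonneg (Nat.cast_nonneg N) _)

/-- large values of the sum make the norm large, the constant does not depend on the function -/
private lemma nrm_ge_u {p : ℝ} (hp : 0 < p) : ∃ c : ℝ, 0 < c ∧ ∀ (g : ℕ → ℤ) (N : ℕ), 1 ≤ N → ∀ S : ℝ, 0 ≤ S →
    (∃ x ∈ Set.Icc (0 : ℝ) 1, S ≤ ‖F g N x‖) → c * (N : ℝ) ^ (-(1 / p)) * S ≤ nrm p g N := by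
  obtain ⟨k, hk⟩ := exists_nat_ge p
  refine ⟨(1 / (k + 1)) ^ (1 / p), by positivity, fun g N hN S hS ⟨x, hx, hSx⟩ => ?_⟩
  have hN0 : (0 : ℝ) < N := by exact_mod_cast hN
  have hN1 : (1 : ℝ) ≤ N := by exact_mod_cast hN
  have hk0 : (0 : ℝ) ≤ k := Nat.cast_nonneg k
  have h1 := nik hp (k := k) (by linarith) g N x hx
  have h2 : S ^ p ≤ (k + 1) * N * mo p g N := by
    refine (Real.rpow_le_rpow hS hSx hp.le).trans (h1.trans (mul_le_mul_of_nonneg_right ?_ (mo_nonneg _ _ _)))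
    nlinarith
  have h3 : 1 / (k + 1) * (N : ℝ) ^ (-1 : ℝ) * S ^ p ≤ mo p g N := by
    rw [Real.rpow_neg_one]
    have h4 : 1 / ((k : ℝ) + 1) * (N : ℝ)⁻¹ * S ^ p ≤ 1 / ((k : ℝ) + 1) * (N : ℝ)⁻¹ * ((k + 1) * N * mo p g N) :=
      mul_le_mul_of_nonneg_left h2 (by positivity)
    refine h4.trans (le_of_eq ?_)
    field_simp
  unfold nrm
  refine le_trans (le_of_eq ?_) (Real.rpow_le_rpow (by positivity) h3 (by positivity))
  rw [Real.mul_rpow (by positivity) (by positivity), Real.mul_rpow (by positivity) (by positivity),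
    ← Real.rpow_mul hN0.le, ← Real.rpow_mul hS]
  have h5 : p * (1 / p) = 1 := by field_simp
  have h6 : -1 * (1 / p) = -(1 / p) := by ring
  rw [h5, h6, Real.rpow_one]

/-- the norm of order `p` -/
theorem NF_nrm {p : ℝ} (hp : 1 ≤ p) : NF (nrm p) where
  congr := by
    intro g g' N h
    unfold nrm mo
    rw [h]
  le_sup := fun g N S hS h => nrm_le_sup (by linarith) g N S hS h
  change := fun a b ha hb q hq h4 hab t ht C hC N hN hbd =>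
    Pool.Agent.Helper23.LP.nrm_change hp a b ha hb q hq h4 hab t ht C hC N hN hbd

/-- the maximum -/
theorem NF_sup : NF sup1 where
  congr := by
    intro g g' N h
    unfold sup1
    rw [h]
  le_sup := fun g N S _ h => sup1_le g N h
  change := fun a b ha hb q hq h4 hab t ht C hC N _ hbd => sup1_change a b ha hb q hq h4 hab t ht C hC N hbd

/-- `SEL` with constants -/
theorem SELX {z : ℕ → ℕ} {L B : ℕ → Finset ℕ} (S : Sys z L B) (f : ℕ → ℤˣ)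
    (hend : ∀ ε : ℝ, 0 < ε → ∃ C : ℝ, ∀ N : ℕ, 1 ≤ N → ∀ s : ℕ → Cho, Endp z N s → ∀ x : ℝ,
      ‖F (ext fun n => ((cut z L B s f n : ℤˣ) : ℤ)) N x‖ ≤ C * (N : ℝ) ^ (1 / 2 + ε))
    (hlow : ∀ j, (z j : ℝ) ^ (3 / 2 - 4 * (1 / ((j : ℝ) + 10))) ≤
      ‖∑ p ∈ B j, ∑ l ∈ L j, ((f p : ℤ) : ℂ) * ((f l : ℤ) : ℂ) * e ((p * l : ℕ) * (1 / (4 * z j + 1)))‖)
    (p : ℝ) (hp : 4 < p) (t : ℝ) (ht1 : 1 / 2 < t) (ht2 : t < 3 / 4 - 1 / p) :
    ∃ s : ℕ → Cho,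
      (∃ N₀ : ℕ, ∀ N : ℕ, N₀ ≤ N → nrm p (ext fun n => ((cut z L B s f n : ℤˣ) : ℤ)) N ≤ (N : ℝ) ^ t) ∧
      ∀ η : ℝ, 0 < η → ∀ N₀ : ℕ, ∃ N : ℕ, N₀ ≤ N ∧
        (1 - η) * (N : ℝ) ^ t ≤ nrm p (ext fun n => ((cut z L B s f n : ℤˣ) : ℤ)) N := by
  obtain ⟨c, hc, hge⟩ := nrm_ge_u (p := p) (by linarith)
  exact SELG (NF_nrm (by linarith)) S f hend hlow (1 / p) c hc hge t ht1 ht2

/-- the same for the maximum -/
theorem SELI {z : ℕ → ℕ} {L B : ℕ → Finset ℕ} (S : Sys z L B) (f : ℕ → ℤˣ)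
    (hend : ∀ ε : ℝ, 0 < ε → ∃ C : ℝ, ∀ N : ℕ, 1 ≤ N → ∀ s : ℕ → Cho, Endp z N s → ∀ x : ℝ,
      ‖F (ext fun n => ((cut z L B s f n : ℤˣ) : ℤ)) N x‖ ≤ C * (N : ℝ) ^ (1 / 2 + ε))
    (hlow : ∀ j, (z j : ℝ) ^ (3 / 2 - 4 * (1 / ((j : ℝ) + 10))) ≤
      ‖∑ p ∈ B j, ∑ l ∈ L j, ((f p : ℤ) : ℂ) * ((f l : ℤ) : ℂ) * e ((p * l : ℕ) * (1 / (4 * z j + 1)))‖)
    (t : ℝ) (ht1 : 1 / 2 < t) (ht2 : t < 3 / 4) :
    ∃ s : ℕ → Cho,
      (∃ N₀ : ℕ, ∀ N : ℕ, N₀ ≤ N → sup1 (ext fun n => ((cut z L B s f n : ℤˣ) : ℤ)) N ≤ (N : ℝ) ^ t) ∧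
      ∀ η : ℝ, 0 < η → ∀ N₀ : ℕ, ∃ N : ℕ, N₀ ≤ N ∧
        (1 - η) * (N : ℝ) ^ t ≤ sup1 (ext fun n => ((cut z L B s f n : ℤˣ) : ℤ)) N := by
  refine SELG NF_sup S f hend hlow 0 1 one_pos ?_ t ht1 (by linarith)
  intro g N _ S' _ ⟨x, hx, hS⟩
  rw [neg_zero, Real.rpow_zero, one_mul, one_mul]
  exact hS.trans (le_sup1 g N hx)

end Pool.Agent.Helper7.LPX
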