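import Pool.Agent.Helper92.CB.BLK

/-!
# P1+ (MP_b6b996_nt), block (C2): the free signs on the squares of the primes of a block
-/

set_option autoImplicit false

namespace Pool.Agent.Helper7.LP

open Finset
open Pool.Agent.Helper92.GB (e ext F npi wt)
open Pool.Agent.Helper92.CB
open Pool.Agent.Helper92.GB.RBaux

variable {z : ℕ} {B : Finset ℕ}

/-- failure of the linear bound -/
private def BadS (B : Finset ℕ) (A : ℝ) (z : ℕ) (g : ℕ → ℤ) : Prop :=
  ∃ (q : ℕ) (χ : DirichletCharacter ℂ q) (t : ℝ) (y : ℕ), 1 ≤ q ∧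
    A * Real.sqrt z * Real.sqrt (Real.log (q * (2 + |t|)) * Real.log z) <
      ‖∑ p ∈ B.filter (· ≤ y), (g (p ^ 2) : ℂ) * χ (p : ZMod q) * npi p t‖

private lemma BadS_congr (A : ℝ) {g g' : ℕ → ℤ} (h : ∀ p ∈ B, g (p ^ 2) = g' (p ^ 2)) :
    BadS B A z g ↔ BadS B A z g' := by
  have h1 : ∀ (q : ℕ) (χ : DirichletCharacter ℂ q) (t : ℝ) (y : ℕ),
      ∑ p ∈ B.filter (· ≤ y), (g (p ^ 2) : ℂ) * χ (p : ZMod q) * npi p t =
      ∑ p ∈ B.filter (· ≤ y), (g' (p ^ 2) : ℂ) * χ (p : ZMod q) * npi p t := by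
    intro q χ t y
    refine Finset.sum_congr rfl fun p hp => ?_
    rw [h p (Finset.mem_filter.1 hp).1]
  unfold BadS
  simp_rw [h1]

private lemma sqrt_sq' (p : ℕ) : Nat.sqrt (p ^ 2) = p := by
  rw [sq]
  exact Nat.sqrt_eq p

private lemma bad_prob_sq (A : ℝ) (M₀ : ℕ) (hU : URP A M₀) (hz0 : M₀ ≤ z) (hz : 3 ≤ z)
    (hB : B ⊆ Ioc (3 * z) (4 * z)) :
    open Classical in
    ∑ ξ : {x // x ∈ B.image fun p => p ^ 2} → ℤˣ, wt (fun _ => 0) ξ * (if BadS B A z (xt ξ) then 1 else 0) ≤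
      1 / (z : ℝ) ^ 10 := by
  classical
  have hzr : (3 : ℝ) ≤ z := by exact_mod_cast hz
  have hcB : B.card ≤ z := card_le hB
  have hcard : Fintype.card {x // x ∈ B.image fun p => p ^ 2} ≤ z := by
    rw [Fintype.card_coe]
    exact Finset.card_image_le.trans hcB
  have hcardL : (((B.image fun p => p ^ 2).card : ℕ) : ℝ) ≤ z := by
    exact_mod_cast Finset.card_image_le.trans hcB
  have hz4 : 4 * (z : ℝ) ≤ (z : ℝ) ^ 4 := by
    have : (27 : ℝ) ≤ (z : ℝ) ^ 3 := by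
      calc (27 : ℝ) = 3 ^ 3 := by norm_num
        _ ≤ _ := pow_le_pow_left₀ (by norm_num) hzr 3
    nlinarith
  have hmem : ∀ s : {x // x ∈ B.image fun p => p ^ 2}, Nat.sqrt (s : ℕ) ∈ B := by
    intro s
    obtain ⟨p, hp, hps⟩ := Finset.mem_image.1 s.2
    rw [← hps, sqrt_sq']
    exact hp
  set w1 : (q : ℕ) → DirichletCharacter ℂ q → ℝ → ℕ → {x // x ∈ B.image fun p => p ^ 2} → ℂ :=
    fun q χ t y l => if Nat.sqrt (l : ℕ) ≤ y then χ ((Nat.sqrt (l : ℕ) : ℕ) : ZMod q) * npi (Nat.sqrt (l : ℕ)) t else 0 with hw1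
  have h1 := hU z hz0 {x // x ∈ B.image fun p => p ^ 2} hcard (fun _ => 0) (fun _ => by simp) (z : ℝ)
    (by linarith) (by linarith) w1
    (by
      intro q χ t y
      calc ∑ s, ‖w1 q χ t y s‖ ^ 2 ≤ ∑ s : {x // x ∈ B.image fun p => p ^ 2}, (1 : ℝ) :=
            Finset.sum_le_sum fun s _ => pow_le_one₀ (norm_nonneg _) (chi_npi χ t y _)
        _ ≤ z := by simpa using hcardL)
    (by
      intro q χ t t' y s
      have hs := Finset.mem_Ioc.1 (hB (hmem s))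
      refine (chi_lip χ t t' y (Nat.sqrt (s : ℕ)) (by omega)).trans ?_
      refine mul_le_mul_of_nonneg_right ?_ (abs_nonneg _)
      have : ((Nat.sqrt (s : ℕ) : ℕ) : ℝ) ≤ 4 * z := by exact_mod_cast hs.2
      linarith)
  refine le_trans (Finset.sum_le_sum fun ξ _ => ?_) h1
  refine mul_le_mul_of_nonneg_left ?_ (wt_nonneg _ (fun _ => by simp) ξ)
  split_ifs with c1 c2 c2
  · exact le_refl _
  · exfalso
    apply c2
    obtain ⟨q, χ, t, y, hq, hlt⟩ := c1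
    refine ⟨q, χ, t, min y (4 * z), hq, min_le_right _ _, ?_⟩
    refine lt_of_lt_of_eq hlt ?_
    congr 1
    rw [sum_xt _ (fun l => ((xt ξ l : ℤ) : ℂ) *
        (if Nat.sqrt l ≤ min y (4 * z) then χ ((Nat.sqrt l : ℕ) : ZMod q) * npi (Nat.sqrt l) t else 0))
      (fun l => by rw [xt_val, hw1]; push_cast; simp), Finset.sum_filter,
      Finset.sum_image (fun a _ b _ hab => Nat.pow_left_injective (by norm_num) hab)]
    refine Finset.sum_congr rfl fun l hl => ?_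
    rw [sqrt_sq']
    have h4 := (Finset.mem_Ioc.1 (hB hl)).2
    by_cases h : l ≤ y
    · rw [if_pos h, if_pos (le_min h h4)]; ring
    · rw [if_neg h, if_neg (fun h' => h (h'.trans (min_le_left _ _))), mul_zero]
  · norm_num
  · exact le_refl _

private lemma wt_zero_sum (c : Finset ℕ) : ∑ ξ : {x // x ∈ c} → ℤˣ, wt (fun _ => (0 : ℝ)) ξ = 1 := by
  have h : ∀ ξ : {x // x ∈ c} → ℤˣ, wt (fun _ => (0 : ℝ)) ξ = (1 / 2) ^ c.card := by
    intro ξ
    unfold wt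
    simp
  simp_rw [h]
  rw [Finset.sum_const, Finset.card_univ, nsmul_eq_mul, Fintype.card_fun, Fintype.card_coe]
  have h2 : Fintype.card ℤˣ = 2 := rfl
  rw [h2]
  push_cast
  rw [← mul_pow]
  norm_num

theorem UBLK : ∃ C : ℝ, 0 < C ∧ ∃ z₀ : ℕ, ∀ z : ℕ, z₀ ≤ z → ∀ B : Finset ℕ, B ⊆ Ioc (3 * z) (4 * z) →
    ∃ w : ({n // n ∈ B.image fun p => p ^ 2} → ℤˣ) → ℝ, IsPW w ∧
      (∀ x, w x ≤ 2 * wt (fun _ => 0) x) ∧
      ∀ f : ℕ → ℤˣ, 0 < w (rs (B.image fun p => p ^ 2) f) →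
        ∀ (q : ℕ) (χ : DirichletCharacter ℂ q) (t : ℝ) (y : ℕ), 1 ≤ q →
          ‖∑ p ∈ B.filter (· ≤ y), ((f (p ^ 2) : ℤ) : ℂ) * χ (p : ZMod q) * npi p t‖ ≤
            C * Real.sqrt z * Real.sqrt (Real.log (q * (2 + |t|)) * Real.log z) := by
  classical
  obtain ⟨A, M₀, hA, _, hU⟩ := Pool.Agent.Helper92.GB.UR
  refine ⟨A, hA, max M₀ 3, fun z hz B hB => ?_⟩
  have hz0 : M₀ ≤ z := (le_max_left _ _).trans hz
  have hz3 : 3 ≤ z := (le_max_right _ _).trans hz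
  have hzr : (3 : ℝ) ≤ z := by exact_mod_cast hz3
  have hb := bad_prob_sq A M₀ hU hz0 hz3 hB
  have hs := wt_zero_sum (B.image fun p => p ^ 2)
  set c := B.image fun p => p ^ 2 with hc
  have hw0 : ∀ ξ : {x // x ∈ c} → ℤˣ, 0 ≤ wt (fun _ => (0 : ℝ)) ξ := fun ξ => wt_nonneg _ (fun _ => by simp) ξ
  set P : ℝ := ∑ ξ : {x // x ∈ c} → ℤˣ, wt (fun _ => 0) ξ * (if ¬ BadS B A z (xt ξ) then 1 else 0) with hP
  have hsum : P + ∑ ξ : {x // x ∈ c} → ℤˣ, wt (fun _ => 0) ξ * (if BadS B A z (xt ξ) then 1 else 0) = 1 := by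
    rw [hP, ← Finset.sum_add_distrib]
    refine (Finset.sum_congr rfl fun ξ _ => ?_).trans hs
    by_cases h : BadS B A z (xt ξ)
    · rw [if_neg (not_not.2 h), if_pos h]
      ring
    · rw [if_pos h, if_neg h]
      ring
  have h10 : 1 / (z : ℝ) ^ 10 ≤ 1 / 2 := by
    apply one_div_le_one_div_of_le (by norm_num)
    calc (2 : ℝ) ≤ 3 ^ 10 := by norm_num
      _ ≤ _ := pow_le_pow_left₀ (by norm_num) hzr 10
  have hP2 : 1 / 2 ≤ P := by linarith
  have hP0 : 0 < P := by linarith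
  refine ⟨fun ξ => wt (fun _ => 0) ξ * (if ¬ BadS B A z (xt ξ) then 1 else 0) / P, ⟨?_, ?_⟩, ?_, ?_⟩
  · intro x
    have := hw0 x
    simp only
    split_ifs <;> positivity
  · rw [← Finset.sum_div, ← hP, div_self hP0.ne']
  · intro x
    have h0 := hw0 x
    simp only
    rw [div_le_iff₀ hP0]
    split_ifs
    · nlinarith
    · nlinarith
  · intro f hf
    have hG : ¬ BadS B A z (xt (rs c f)) := by
      intro hcon
      simp only at hf
      rw [if_neg (not_not.2 hcon), mul_zero, zero_div] at hf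
      exact lt_irrefl _ hf
    have hG2 : ¬ BadS B A z (fun n => ((f n : ℤˣ) : ℤ)) := by
      intro hcon
      refine hG ((BadS_congr A (g := fun n => ((f n : ℤˣ) : ℤ)) ?_).1 hcon)
      intro p hp
      exact (xt_val (rs c f) ⟨p ^ 2, Finset.mem_image_of_mem _ hp⟩).symm
    intro q χ t y hq
    by_contra hcon
    push Not at hcon
    exact hG2 ⟨q, χ, t, y, hq, hcon⟩

end Pool.Agent.Helper7.LP
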